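import Mathlib
import Pool.Agent.N718.GC.Stm
import Pool.Agent.N907.DC.Cls

/-!
Part CLSG: rational points for almost all families in a residue class.
-/

set_option autoImplicit false

namespace Pool.Agent.N849.GC

open Finset Pool.Agent.N718.DC Pool.Agent.N718.GC
open Pool.Agent.N907.DC (cast_fm fm_dvd gcd_part)

theorem cop_prime {M P : ℕ} (hP : P.Prime) (h : ¬ P ∣ M) : cop M (P : ℤ) = P := by
  have : Fact P.Prime := ⟨hP⟩
  unfold cop
  rw [Int.natAbs_natCast, hP.primeFactors, Finset.filter_singleton, if_pos h,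
    Finset.prod_singleton, padicValNat_self, pow_one]

/-- the symbols are trivial -/
theorem sym_one (h2 : S_KAP) {M P g : ℕ} {a F F' s : ℤ} (ha : a ≠ 0) (hC : Cont M a)
    (hP : P.Prime) (hPM : ¬ P ∣ M) (hgM : g ∣ M) (hg0 : g ≠ 0) (hs : s = 1 ∨ s = -1)
    (hFP : s * F' = g * P) (hM : (M : ℤ) ∣ F' - F)
    (hval : ∀ p : ℕ, p.Prime → p ∣ M → padicValNat p (4 * a.natAbs) < padicValNat p M ∧
      ¬ (p : ℤ) ^ (padicValNat p M - padicValNat p (4 * a.natAbs)) ∣ F)
    (hk : kps M a s F = 1) : jacobiSym a P = 1 := by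
  obtain ⟨k1, _, k3, k4, _⟩ := h2
  have hs2 : s * s = 1 := by rcases hs with rfl | rfl <;> norm_num
  have hs0 : s ≠ 0 := by rcases hs with rfl | rfl <;> norm_num
  have hM1 : (1 : ℤ) ≤ M := by exact_mod_cast hC.1
  have hg1 : (0 : ℤ) < g := by exact_mod_cast Nat.pos_of_ne_zero hg0
  have hP1 : (0 : ℤ) < P := by exact_mod_cast hP.pos
  have hsF' : 0 < s * F' := by rw [hFP]; positivity
  have hsF : -|F| ≤ s * F := by
    rcases hs with rfl | rfl
    · rw [one_mul]; exact neg_abs_le F
    · rw [neg_one_mul]; exact neg_le_neg (le_abs_self F)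
  have hsG : 0 < s * (F + s * (M * (|F| + 1))) := by
    have h1 : s * (F + s * (M * (|F| + 1))) = s * F + (s * s) * (M * (|F| + 1)) := by ring
    rw [h1, hs2, one_mul]
    have h2 : 0 ≤ |F| := abs_nonneg F
    nlinarith
  have hpos : 0 < F' * (F + s * (M * (|F| + 1))) := by
    have h1 : F' * (F + s * (M * (|F| + 1))) =
        (s * F') * (s * (F + s * (M * (|F| + 1)))) := by
      have : (s * F') * (s * (F + s * (M * (|F| + 1)))) =
        (s * s) * (F' * (F + s * (M * (|F| + 1)))) := by ring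
      rw [this, hs2, one_mul]
    rw [h1]
    exact mul_pos hsF' hsG
  have hdiv : (M : ℤ) ∣ F' - (F + s * (M * (|F| + 1))) := by
    have h1 : F' - (F + s * (M * (|F| + 1))) = (F' - F) - M * (s * (|F| + 1)) := by ring
    rw [h1]
    exact dvd_sub hM (dvd_mul_right _ _)
  have hv : ∀ p : ℕ, p.Prime → p ∣ M → padicValNat p (4 * a.natAbs) < padicValNat p M ∧
      ¬ (p : ℤ) ^ (padicValNat p M - padicValNat p (4 * a.natAbs)) ∣ F' := by
    intro p hp hpM
    obtain ⟨h1, h2⟩ := hval p hp hpM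
    refine ⟨h1, fun h3 => h2 ?_⟩
    have h4 : (p : ℤ) ^ (padicValNat p M - padicValNat p (4 * a.natAbs)) ∣ (M : ℤ) := by
      have h5 : p ^ (padicValNat p M - padicValNat p (4 * a.natAbs)) ∣ M :=
        (pow_dvd_pow p (Nat.sub_le _ _)).trans pow_padicValNat_dvd
      exact_mod_cast Int.natCast_dvd_natCast.2 h5
    have h5 := dvd_sub h3 (h4.trans hM)
    rwa [sub_sub_cancel] at h5
  have e1 := k1 M a ha hC F' (F + s * (M * (|F| + 1))) hpos hdiv hv
  have e2 : kap M a (F + s * (M * (|F| + 1))) = 1 := hk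
  have e3 : F' = (s * g) * P := by
    have h1 : s * (s * F') = F' := by rw [← mul_assoc, hs2, one_mul]
    rw [← h1, hFP]
    ring
  have hsg : s * (g : ℤ) ≠ 0 := mul_ne_zero hs0 hg1.ne'
  have e4 := k3 M a (s * g) P hsg hP1.ne'
  have e5 : kap M a (s * g) = 1 := by
    refine k4 M a (s * g) hsg ?_
    intro p hp hd
    have h1 : (p : ℤ) ∣ g := by
      rcases hs with rfl | rfl
      · simpa using hd
      · simpa using hd
    exact (Int.natCast_dvd_natCast.1 h1).trans hgM
  have e6 : kap M a (P : ℤ) = jacobiSym a P := by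
    unfold kap
    rw [cop_prime hP hPM]
  calc jacobiSym a P = kap M a (P : ℤ) := e6.symm
    _ = kap M a (s * g) * kap M a (P : ℤ) := by rw [e5, one_mul]
    _ = kap M a (s * g * P) := e4.symm
    _ = kap M a F' := by rw [← e3]
    _ = 1 := by rw [e1, e2]

theorem a_ne {r m : ℕ} {E : Dat r m} {e : Fin m → ℕ} (hE : E.Ok e) (j : Fin r) : E.a j ≠ 0 := by
  intro h
  have h1 := hE.ha {j} (Finset.singleton_nonempty j)
  rw [Finset.prod_singleton, h] at h1
  exact h1 ⟨0, by simp⟩

theorem cont_ {r m : ℕ} {E : Dat r m} {M : ℕ} (hB : Bad E M) (j : Fin r) : Cont M (E.a j) := by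
  refine ⟨hB.1, hB.2.1, fun p hp hd => hB.2.2 p hp ?_⟩
  exact (hd.mul_right _).trans (Finset.dvd_prod_of_mem _ (Finset.mem_univ j))

theorem val_le {r m : ℕ} {E : Dat r m} {e : Fin m → ℕ} (hE : E.Ok e) {p : ℕ} (hp : p.Prime)
    (j : Fin r) : padicValNat p (4 * (E.a j).natAbs) + 3 ≤ dl E p := by
  have : Fact p.Prime := ⟨hp⟩
  unfold dl
  have h1 : padicValNat p (4 * (E.a j).natAbs) ≤ padicValNat p (4 * ∏ j, (E.a j).natAbs) := by
    have hne : 4 * ∏ j, (E.a j).natAbs ≠ 0 := by
      refine mul_ne_zero (by norm_num) (Finset.prod_ne_zero_iff.2 ?_)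
      intro j _
      exact Int.natAbs_ne_zero.2 (a_ne hE j)
    refine (padicValNat_dvd_iff_le hne).1 ?_
    refine pow_padicValNat_dvd.trans (mul_dvd_mul_left 4 ?_)
    exact Finset.dvd_prod_of_mem _ (Finset.mem_univ j)
  omega

theorem clsg_ (h1 : Pool.Agent.N718.DC.S_AMT) (h2 : S_KAP) (h3 : S_LOCN) (h4 : S_ARIG) :
    S_CLSG := by
  classical
  intro r m E e hE
  obtain ⟨C, hC, hmain⟩ := h1 m e
  refine ⟨C, hC, ?_⟩
  intro W M hW hB hWM hMW a₀ a₁ α β hαβ γ s hs hLC
  have hM : 1 ≤ M := hB.1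
  have hval := hLC.1.val
  have hpart := fun i => gcd_part (M := M) hM (f := fm (γ i) a₀ a₁)
    (fun p hp hpM => ⟨by
      have h5 := (hval p hp hpM).1
      unfold dl at h5
      omega, by
      have h5 := (hval p hp hpM).1
      have h6 := (hval p hp hpM).2 i
      intro h7
      apply h6
      refine (pow_dvd_pow (p : ℤ) ?_).trans h7
      unfold dl at h5 ⊢
      omega⟩)
  have hg0 : ∀ i, Int.gcd (fm (γ i) a₀ a₁) M ≠ 0 := by
    intro i h8
    have h7 := (hpart i).1.1
    rw [h8, zero_dvd_iff] at h7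
    omega
  obtain ⟨H₀, hH₀⟩ := hmain W M hW hM hB.2.1 hWM hMW a₀ a₁ α β hαβ γ
    (fun i => Int.gcd (fm (γ i) a₀ a₁) M) s (fun _ _ => 1) hs.1 (fun _ _ => Or.inl rfl)
    (fun i => ⟨(hpart i).1.1, fun p hp hpM =>
      (dvd_pow_self p three_ne_zero).trans ((hpart i).1.2 p hp hpM)⟩)
    (fun i => (hpart i).2)
  refine ⟨H₀, fun H hH => le_trans ?_ (hH₀ H hH)⟩
  have hsub := Finset.monotone_filter_right (BXI e H)
    (p := fun c => (∀ i j, (M : ℤ) ∣ c i j - γ i j) ∧
      (∀ i, ∀ z : ℝ, α < z → z < β → 0 < (s i : ℝ) * fmv (c i) 1 z) ∧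
      ¬ ∃ x y : ℤ, 0 < x ∧ (M : ℤ) ∣ x - a₀ ∧ (M : ℤ) ∣ y - a₁ ∧ α * x < y ∧ (y : ℝ) < β * x ∧
        PG E c (x : ℚ) (y : ℚ))
    (q := fun c => (∀ i j, (M : ℤ) ∣ c i j - γ i j) ∧
      (∀ i, ∀ z : ℝ, α < z → z < β → 0 < (s i : ℝ) * fmv (c i) 1 z) ∧
      ¬ ∃ x y : ℤ, 0 < x ∧ (M : ℤ) ∣ x - a₀ ∧ (M : ℤ) ∣ y - a₁ ∧ α * x < y ∧ (y : ℝ) < β * x ∧
        ∃ P : Fin m → ℕ, (∀ i, (P i).Prime ∧
          s i * fm (c i) x y = (Int.gcd (fm (γ i) a₀ a₁) M : ℕ) * P i) ∧
          ∀ i j : Fin m, i < j → jacobiSym (P i) (P j) = 1) (by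
      rintro c - ⟨hc1, hc2, hc3⟩
      refine ⟨hc1, hc2, ?_⟩
      rintro ⟨x, y, hx, hxa, hya, hαx, hβx, P, hP, -⟩
      apply hc3
      have hdv : ∀ i, (M : ℤ) ∣ fm (c i) x y - fm (γ i) a₀ a₁ := fun i =>
        fm_dvd (hc1 i) hxa hya
      have hs2 : ∀ i, s i * s i = 1 := by
        intro i
        rcases hs.1 i with h | h <;> rw [h] <;> norm_num
      have hpos : ∀ i, 0 < s i * fm (c i) x y := by
        intro i
        rw [(hP i).2]
        have h5 : (0 : ℤ) < (Int.gcd (fm (γ i) a₀ a₁) M : ℕ) := by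
          exact_mod_cast Nat.pos_of_ne_zero (hg0 i)
        have h6 : (0 : ℤ) < P i := by exact_mod_cast (hP i).1.pos
        positivity
      have hne : ∀ i, fm (c i) x y ≠ 0 := by
        intro i h0
        have := hpos i
        rw [h0, mul_zero] at this
        exact lt_irrefl _ this
      refine ⟨x, y, hx, hxa, hya, hαx, hβx, ?_, ?_⟩
      · intro i
        rw [← cast_fm]
        exact_mod_cast hne i
      · intro j
        have hN : rhs E c j (x : ℚ) (y : ℚ) =
            ((E.b j * ∏ i ∈ E.I j, fm (c i) x y : ℤ) : ℚ) := by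
          unfold rhs
          push_cast
          congr 1
          refine Finset.prod_congr rfl fun i _ => ?_
          rw [← cast_fm]
        rw [hN]
        have hfac : ∏ i ∈ E.I j, fm (c i) x y =
            (∏ i ∈ E.I j, s i) * ∏ i ∈ E.I j, (s i * fm (c i) x y) := by
          rw [← Finset.prod_mul_distrib]
          refine Finset.prod_congr rfl fun i _ => ?_
          rw [← mul_assoc, hs2, one_mul]
        have hppos : 0 < ∏ i ∈ E.I j, (s i * fm (c i) x y) := Finset.prod_pos fun i _ => hpos i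
        refine h4 M (E.a j) _ (a_ne hE j) ?_ (cont_ hB j) ?_ ?_ ?_
        · exact mul_ne_zero (hE.hb j) (Finset.prod_ne_zero_iff.2 fun i _ => hne i)
        · rcases hs.2 j with h | h
          · exact Or.inl h
          · right
            rw [hfac, ← mul_assoc]
            exact mul_pos h hppos
        · intro p hp hpM
          have hsol := (hLC.1.sol p hpM).2 j
          have hz : ∀ i, ∃ z : ℚ_[p], z ≠ 0 ∧
              ((fm (c i) x y : ℤ) : ℚ_[p]) = ((fm (γ i) a₀ a₁ : ℤ) : ℚ_[p]) * z ^ 2 := by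
            intro i
            refine h3.2.1 p (fm (γ i) a₀ a₁) (fm (c i) x y) (padicValNat p M - dl E p)
              ((hval p hp.out hpM).2 i) ?_
            have h5 := (hval p hp.out hpM).1
            have h6 : p ^ (padicValNat p M - dl E p + 3) ∣ M := by
              refine (pow_dvd_pow p ?_).trans pow_padicValNat_dvd
              unfold dl at h5 ⊢
              omega
            have h7 : (p : ℤ) ^ (padicValNat p M - dl E p + 3) ∣ (M : ℤ) := by
              exact_mod_cast Int.natCast_dvd_natCast.2 h6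
            rw [← neg_sub, dvd_neg]
            exact h7.trans (hdv i)
          choose z hz0 hz1 using hz
          have h5 : ((E.b j * ∏ i ∈ E.I j, fm (c i) x y : ℤ) : ℚ_[p]) =
              rhs E γ j ((a₀ : ℤ) : ℚ_[p]) ((a₁ : ℤ) : ℚ_[p]) * (∏ i ∈ E.I j, z i) ^ 2 := by
            unfold rhs
            push_cast
            rw [mul_assoc, ← Finset.prod_pow, ← Finset.prod_mul_distrib]
            congr 1
            refine Finset.prod_congr rfl fun i _ => ?_
            rw [hz1 i, ← cast_fm]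
          rw [h5]
          exact h3.2.2.1 _ _ _ _ hsol
        · intro p hp hpM hpN
          have hpp : Prime (p : ℤ) := Nat.prime_iff_prime_int.1 hp
          rcases hpp.dvd_or_dvd hpN with h | h
          · exfalso
            apply hpM
            refine hB.2.2 p hp ?_
            exact (h.mul_left _).trans
              (Finset.dvd_prod_of_mem (fun j => E.a j * E.b j) (Finset.mem_univ j))
          · obtain ⟨i, hi, hid⟩ := (hpp.dvd_finsetProd_iff _).1 h
            have h5 : (p : ℤ) ∣ (Int.gcd (fm (γ i) a₀ a₁) M : ℕ) * P i := by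
              rw [← (hP i).2]
              exact hid.mul_left _
            have hpP : p = P i := by
              rcases hpp.dvd_or_dvd h5 with h6 | h6
              · exact absurd ((Int.natCast_dvd_natCast.1 h6).trans (hpart i).1.1) hpM
              · exact (Nat.prime_dvd_prime_iff_eq hp (hP i).1).1 (Int.natCast_dvd_natCast.1 h6)
            rw [hpP]
            rw [hpP] at hpM
            refine sym_one h2 (F := fm (γ i) a₀ a₁) (a_ne hE j) (cont_ hB j) (hP i).1 hpM
              (hpart i).1.1 (hg0 i) (hs.1 i) (hP i).2 (hdv i) ?_ (hLC.2 j i hi)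
            intro p' hp' hpM'
            have h7 := (hval p' hp' hpM').1
            have h8 := (hval p' hp' hpM').2 i
            have h9 := val_le hE hp' j
            refine ⟨by omega, fun h10 => h8 ?_⟩
            exact (pow_dvd_pow (p' : ℤ) (by omega)).trans h10)
  exact_mod_cast Finset.card_le_card hsub

end Pool.Agent.N849.GC
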